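import Pool.Agent.Y315.TN.Rad

/-!
# Cosets of the Torelli group and stabilizers of degenerate subspaces are negligible

`Mod g` is the mapping class group of the closed oriented surface of genus `g`; a mapping class
`toMod φ` acts on `H_1(Σ_g; ℝ) = ℝ^{2g}` by `act φ`, and `realForm` is the intersection form.
One sequence `t` of mapping classes works for all finite sets `S`, all large finite sets `J` of
indices, all radii `r` and all subspaces on which the form is degenerate: in the word length of
`S ∪ {t j : j ∈ J}`, the ball of radius `r` contains at most `ε ^ r` times as many elements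
carrying such a subspace `W` onto `W'` (or a nonzero vector `v` to `w`, or lying in a given coset
of the Torelli group) as elements of `Mod g`. The conditions on the sizes are explicit:
`5 |S| + 3 ≤ ε |J|` and `24 ≤ ε² |J|`.

For the Torelli group itself and for `J = {0, ..., n - 1}`, `n` large depending on `S` and `ε`,
this is the bound in `TorelliNegligible.lean` in this folder (with another sequence `t`).
-/

set_option autoImplicit false

namespace Pool.Agent.Results.MP_4a6971_al.IsotropicStabilizers

open Pool.Agent.Results.MP_4a6971_al.TorelliNegligible Pool.Agent.Y315.TN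

/-- For the closed oriented surface of genus `g`, there is one sequence `t` of distinct mapping
classes such that for every `ε > 0`, every finite set `S` of mapping classes and every finite set
`J` of indices with `5 |S| + 3 ≤ ε |J|` and `24 ≤ ε² |J|`, in the word length of
`S ∪ {t j : j ∈ J}` and for every radius `r`, at most `ε ^ r` times the number of all elements
of the ball of radius `r`
* carry `W` onto `W'`, for all subspaces `W`, `W'` of `H_1(Σ_g; ℝ)` such that the intersection
  form is degenerate on `W` (for instance `W` is nonzero and isotropic, or of odd dimension, or a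
  hyperplane);
* carry `v` to `w`, for all `v`, `w` in `H_1(Σ_g; ℝ)` with `v` nonzero;
* lie in the coset `m 𝓘_g` of the Torelli group, for every mapping class `m`. -/
theorem result (g : ℕ) (hg : 1 ≤ g) :
    ∃ t : ℕ → Mod g, Function.Injective t ∧
      ∀ ε : ℝ, 0 < ε → ∀ S : Set (Mod g), S.Finite → ∀ J : Finset ℕ,
        5 * (S.ncard : ℝ) + 3 ≤ ε * J.card → 24 ≤ ε ^ 2 * J.card → ∀ r : ℕ,
        (∀ W W' : Submodule ℝ (HR g), (∃ u ∈ W, u ≠ 0 ∧ ∀ v ∈ W, realForm u v = 0) →
          ((ball (S ∪ t '' J) r ∩
              {a | ∃ φ : orientedAut g, toMod φ = a ∧ act φ '' W = W'}).ncard : ℝ) ≤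
            ε ^ r * ((ball (S ∪ t '' J) r).ncard : ℝ)) ∧
        (∀ v w : HR g, v ≠ 0 →
          ((ball (S ∪ t '' J) r ∩
              {a | ∃ φ : orientedAut g, toMod φ = a ∧ act φ v = w}).ncard : ℝ) ≤
            ε ^ r * ((ball (S ∪ t '' J) r).ncard : ℝ)) ∧
        (∀ m : Mod g,
          ((ball (S ∪ t '' J) r ∩ {a | m⁻¹ * a ∈ torelli g}).ncard : ℝ) ≤
            ε ^ r * ((ball (S ∪ t '' J) r).ncard : ℝ)) :=
  ⟨tt g, tt_injective hg, fun ε hε S hS J h1 h2 r =>
    ⟨fun W W' hW => rad_bound g hg S hS J ε hε h1 h2 r W W' hW,
      fun v w hv => class_bound' g hg S hS J ε hε h1 h2 r v w hv,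
      fun m => coset_bound g hg S hS J ε hε h1 h2 r m⟩⟩

end Pool.Agent.Results.MP_4a6971_al.IsotropicStabilizers
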